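import Pool.Agent.K4.Menger

set_option autoImplicit false

/-!
# Rooted walls

`G` is a graph with finitely many edges, `W ≤ G` an `n × n` grid of blobs (for instance a brick
wall with subdivided segments), `Z` a set of `k` vertices that is linked to the tangle of `W`: no
set of fewer than `k` vertices separates `Z` from the rows it does not meet. If `n` is big then
there are `k` disjoint paths from `Z` to `k` prescribed vertices on the top of some full subgrid of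
side `h`; they meet this subgrid nowhere else.

Proof: take `W ≤ H ≤ G` edge minimal such that `Z` is still linked. All edges of `H` outside of
`W` lie inside one small side of order `k`, by uncrossing; so `H` is the wall outside of few rows
and columns.
-/

open Set

namespace K4R

variable {V : Type*}

/-! ### Boundaries -/

/-- The vertices of `X` with a neighbour outside. -/
def bd (H : SimpleGraph V) (X : Set V) : Set V := {x | x ∈ X ∧ ∃ y, y ∉ X ∧ H.Adj x y}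

lemma bd_fin {H : SimpleGraph V} (hH : H.edgeSet.Finite) (X : Set V) : (bd H X).Finite := by
  have h1 : (⋃ e ∈ H.edgeSet, {v : V | v ∈ e}).Finite := by
    refine hH.biUnion fun e _ => ?_
    induction e using Sym2.ind with
    | _ x y =>
      refine (Set.toFinite ({x, y} : Set V)).subset ?_
      intro v hv
      simpa using hv
  refine h1.subset ?_
  rintro x ⟨_, y, _, hxy⟩
  simp only [mem_iUnion]
  exact ⟨s(x, y), hxy, by simp⟩

lemma bd_mono {H H' : SimpleGraph V} (h : H ≤ H') (X : Set V) : bd H X ⊆ bd H' X := by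
  rintro x ⟨h1, y, h2, h3⟩
  exact ⟨h1, y, h2, h h3⟩

lemma bd_submod {H : SimpleGraph V} (hH : H.edgeSet.Finite) (X Y : Set V) :
    (bd H (X ∪ Y)).ncard + (bd H (X ∩ Y)).ncard ≤ (bd H X).ncard + (bd H Y).ncard := by
  rw [← ncard_union_add_ncard_inter _ _ (bd_fin hH _) (bd_fin hH _),
    ← ncard_union_add_ncard_inter (bd H X) (bd H Y) (bd_fin hH _) (bd_fin hH _)]
  refine add_le_add (ncard_le_ncard ?_ ((bd_fin hH _).union (bd_fin hH _)))
    (ncard_le_ncard ?_ ((bd_fin hH _).inter_of_left _))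
  · rintro x (⟨h1, y, h2, h3⟩ | ⟨h1, y, h2, h3⟩)
    · rcases h1 with h1 | h1
      · exact Or.inl ⟨h1, y, fun h => h2 (Or.inl h), h3⟩
      · exact Or.inr ⟨h1, y, fun h => h2 (Or.inr h), h3⟩
    · by_cases hy : y ∈ X
      · exact Or.inr ⟨h1.2, y, fun h => h2 ⟨hy, h⟩, h3⟩
      · exact Or.inl ⟨h1.1, y, hy, h3⟩
  · rintro x ⟨⟨_, y, h2, h3⟩, ⟨h4, _⟩⟩
    exact ⟨⟨h4.1, y, fun h => h2 (Or.inl h), h3⟩, ⟨h4.2, y, fun h => h2 (Or.inr h), h3⟩⟩

/-- A walk that leaves `X` passes through the boundary of `X`. -/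
lemma cross {H : SimpleGraph V} {U X : Set V} {a b : V} (h : Joined H U a b) (ha : a ∈ X)
    (hb : b ∉ X) : ∃ u ∈ bd H X, u ∈ U := by
  obtain ⟨p, hp⟩ := h
  induction p with
  | nil => exact absurd ha hb
  | @cons x y c hxy p ih =>
    by_cases hy : y ∈ X
    · exact ih hy hb (fun z hz => hp z (by simp [hz]))
    · exact ⟨x, ⟨ha, y, hy, hxy⟩, hp x (by simp)⟩

/-- Unions of connected sets with a common point. -/
lemma ConnIn.union {H : SimpleGraph V} {A B : Set V} (hA : ConnIn H A) (hB : ConnIn H B)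
    {c : V} (h1 : c ∈ A) (h2 : c ∈ B) : ConnIn H (A ∪ B) := by
  have key : ∀ a ∈ A ∪ B, Joined H (A ∪ B) a c := by
    rintro a (ha | ha)
    · exact (hA a ha c h1).mono subset_union_left
    · exact (hB a ha c h2).mono subset_union_right
  intro a ha b hb
  exact (key a ha).trans (key b hb).symm

/-! ### Grids of blobs -/

/-- The labels of an `n × n` grid: `(0, x, y)` node, `(1, x, y)` segment from `(x, y)` to
`(x + 1, y)`, `(2, x, y)` segment from `(x, y)` to `(x, y + 1)`. -/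
def Val (n : ℕ) : Set (ℕ × ℕ × ℕ) :=
  {l | l.2.1 < n ∧ l.2.2 < n ∧ (l.1 = 0 ∨ (l.1 = 1 ∧ l.2.1 + 1 < n) ∨ (l.1 = 2 ∧ l.2.2 + 1 < n))}

/-- The labels of a row. -/
def RowL (n j : ℕ) : Set (ℕ × ℕ × ℕ) :=
  {l | l.2.2 = j ∧ l.2.1 < n ∧ (l.1 = 0 ∨ (l.1 = 1 ∧ l.2.1 + 1 < n))}

/-- The labels of a column. -/
def ColL (n i : ℕ) : Set (ℕ × ℕ × ℕ) :=
  {l | l.2.1 = i ∧ l.2.2 < n ∧ (l.1 = 0 ∨ (l.1 = 2 ∧ l.2.2 + 1 < n))}

/-- The labels of the subgrid with corner `(a, b)` and `w × h` nodes. -/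
def RegL (a b w h : ℕ) : Set (ℕ × ℕ × ℕ) :=
  {l | a ≤ l.2.1 ∧ l.2.1 < a + w ∧ b ≤ l.2.2 ∧ l.2.2 < b + h ∧
    (l.1 = 0 ∨ (l.1 = 1 ∧ l.2.1 + 1 < a + w) ∨ (l.1 = 2 ∧ l.2.2 + 1 < b + h))}

/-- The vertices with labels in `A`. -/
def Un (P : ℕ × ℕ × ℕ → Set V) (A : Set (ℕ × ℕ × ℕ)) : Set V := {v | ∃ l ∈ A, v ∈ P l}

lemma Un.mono {P : ℕ × ℕ × ℕ → Set V} {A B : Set (ℕ × ℕ × ℕ)} (h : A ⊆ B) : Un P A ⊆ Un P B :=
  fun _ ⟨l, hl, hv⟩ => ⟨l, h hl, hv⟩

/-- `W` is an `n × n` grid of blobs: the nodes `P (0, x, y)` are nonempty sets, two consecutive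
nodes and the segment between them form a connected set, every edge of `W` lies in such a set, and
`up x y` is a vertex of the node `(x, y)` to which the next segment upwards is attached. -/
structure BGrid (W : SimpleGraph V) (n : ℕ) (P : ℕ × ℕ × ℕ → Set V) (up : ℕ → ℕ → V) : Prop where
  disj : ∀ l ∈ Val n, ∀ l' ∈ Val n, ∀ v ∈ P l, v ∈ P l' → l = l'
  ne : ∀ x < n, ∀ y < n, (P (0, x, y)).Nonempty
  hor : ∀ x y, x + 1 < n → y < n → ConnIn W (P (0, x, y) ∪ P (1, x, y) ∪ P (0, x + 1, y))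
  ver : ∀ x y, x < n → y + 1 < n → ConnIn W (P (0, x, y) ∪ P (2, x, y) ∪ P (0, x, y + 1))
  loc : ∀ u v, W.Adj u v →
    (∃ x y, x + 1 < n ∧ y < n ∧ u ∈ P (0, x, y) ∪ P (1, x, y) ∪ P (0, x + 1, y) ∧
      v ∈ P (0, x, y) ∪ P (1, x, y) ∪ P (0, x + 1, y)) ∨
    (∃ x y, x < n ∧ y + 1 < n ∧ u ∈ P (0, x, y) ∪ P (2, x, y) ∪ P (0, x, y + 1) ∧
      v ∈ P (0, x, y) ∪ P (2, x, y) ∪ P (0, x, y + 1))
  up_mem : ∀ x y, x < n → y + 1 < n → up x y ∈ P (0, x, y)
  up_conn : ∀ x y, x < n → y + 1 < n → ConnIn W ({up x y} ∪ P (2, x, y) ∪ P (0, x, y + 1))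

section Grid

variable {W H : SimpleGraph V} {n : ℕ} {P : ℕ × ℕ × ℕ → Set V} {up : ℕ → ℕ → V}

lemma rowL_val {n j : ℕ} (hj : j < n) : RowL n j ⊆ Val n := by
  rintro ⟨t, x, y⟩ ⟨h1, h2, h3⟩
  simp only at h1 h2 h3
  subst h1
  exact ⟨h2, hj, by rcases h3 with h | h <;> simp [h]⟩

lemma colL_val {n i : ℕ} (hi : i < n) : ColL n i ⊆ Val n := by
  rintro ⟨t, x, y⟩ ⟨h1, h2, h3⟩
  simp only at h1 h2 h3
  subst h1
  exact ⟨hi, h2, by rcases h3 with h | h <;> simp [h]⟩

/-- A part of a row. -/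
lemma BGrid.row_part (hB : BGrid W n P up) {y x₁ : ℕ} (hy : y < n) (h1 : x₁ < n) :
    ∀ m, x₁ + m + 1 < n → ConnIn W {v | ∃ i, x₁ ≤ i ∧ ((i ≤ x₁ + m + 1 ∧ v ∈ P (0, i, y)) ∨
      (i ≤ x₁ + m ∧ v ∈ P (1, i, y)))} := by
  intro m
  induction m with
  | zero =>
    intro h2
    have h3 := hB.hor x₁ y (by omega) hy
    convert h3 using 1
    ext v
    simp only [mem_ofPred_eq, mem_union]
    constructor
    · rintro ⟨i, hi, ⟨h4, h5⟩ | ⟨h4, h5⟩⟩
      · rcases (by omega : i = x₁ ∨ i = x₁ + 1) with rfl | rfl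
        · exact Or.inl (Or.inl h5)
        · exact Or.inr h5
      · have : i = x₁ := by omega
        subst this
        exact Or.inl (Or.inr h5)
    · rintro ((h4 | h4) | h4)
      · exact ⟨x₁, le_rfl, Or.inl ⟨by omega, h4⟩⟩
      · exact ⟨x₁, le_rfl, Or.inr ⟨by omega, h4⟩⟩
      · exact ⟨x₁ + 1, by omega, Or.inl ⟨by omega, h4⟩⟩
  | succ m ih =>
    intro h2
    have h3 := ih (by omega)
    have h4 := hB.hor (x₁ + m + 1) y (by omega) hy
    obtain ⟨c, hc⟩ := hB.ne (x₁ + m + 1) (by omega) y hy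
    have h5 := ConnIn.union h3 h4 (c := c) ⟨x₁ + m + 1, by omega, Or.inl ⟨le_rfl, hc⟩⟩
      (Or.inl (Or.inl hc))
    convert h5 using 1
    ext v
    simp only [mem_ofPred_eq, mem_union]
    constructor
    · rintro ⟨i, hi, ⟨h6, h7⟩ | ⟨h6, h7⟩⟩
      · rcases (by omega : i ≤ x₁ + m + 1 ∨ i = x₁ + m + 1 + 1) with h8 | rfl
        · exact Or.inl ⟨i, hi, Or.inl ⟨h8, h7⟩⟩
        · exact Or.inr (Or.inr h7)
      · rcases (by omega : i ≤ x₁ + m ∨ i = x₁ + m + 1) with h8 | rfl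
        · exact Or.inl ⟨i, hi, Or.inr ⟨h8, h7⟩⟩
        · exact Or.inr (Or.inl (Or.inr h7))
    · rintro (⟨i, hi, ⟨h6, h7⟩ | ⟨h6, h7⟩⟩ | ((h6 | h6) | h6))
      · exact ⟨i, hi, Or.inl ⟨by omega, h7⟩⟩
      · exact ⟨i, hi, Or.inr ⟨by omega, h7⟩⟩
      · exact ⟨x₁ + m + 1, by omega, Or.inl ⟨by omega, h6⟩⟩
      · exact ⟨x₁ + m + 1, by omega, Or.inr ⟨by omega, h6⟩⟩
      · exact ⟨x₁ + m + 1 + 1, by omega, Or.inl ⟨by omega, h6⟩⟩

/-- A part of a column. -/
lemma BGrid.col_part (hB : BGrid W n P up) {x y₁ : ℕ} (hx : x < n) (h1 : y₁ < n) :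
    ∀ m, y₁ + m + 1 < n → ConnIn W {v | ∃ i, y₁ ≤ i ∧ ((i ≤ y₁ + m + 1 ∧ v ∈ P (0, x, i)) ∨
      (i ≤ y₁ + m ∧ v ∈ P (2, x, i)))} := by
  intro m
  induction m with
  | zero =>
    intro h2
    have h3 := hB.ver x y₁ hx (by omega)
    convert h3 using 1
    ext v
    simp only [mem_ofPred_eq, mem_union]
    constructor
    · rintro ⟨i, hi, ⟨h4, h5⟩ | ⟨h4, h5⟩⟩
      · rcases (by omega : i = y₁ ∨ i = y₁ + 1) with rfl | rfl
        · exact Or.inl (Or.inl h5)
        · exact Or.inr h5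
      · have : i = y₁ := by omega
        subst this
        exact Or.inl (Or.inr h5)
    · rintro ((h4 | h4) | h4)
      · exact ⟨y₁, le_rfl, Or.inl ⟨by omega, h4⟩⟩
      · exact ⟨y₁, le_rfl, Or.inr ⟨by omega, h4⟩⟩
      · exact ⟨y₁ + 1, by omega, Or.inl ⟨by omega, h4⟩⟩
  | succ m ih =>
    intro h2
    have h3 := ih (by omega)
    have h4 := hB.ver x (y₁ + m + 1) hx (by omega)
    obtain ⟨c, hc⟩ := hB.ne x hx (y₁ + m + 1) (by omega)
    have h5 := ConnIn.union h3 h4 (c := c) ⟨y₁ + m + 1, by omega, Or.inl ⟨le_rfl, hc⟩⟩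
      (Or.inl (Or.inl hc))
    convert h5 using 1
    ext v
    simp only [mem_ofPred_eq, mem_union]
    constructor
    · rintro ⟨i, hi, ⟨h6, h7⟩ | ⟨h6, h7⟩⟩
      · rcases (by omega : i ≤ y₁ + m + 1 ∨ i = y₁ + m + 1 + 1) with h8 | rfl
        · exact Or.inl ⟨i, hi, Or.inl ⟨h8, h7⟩⟩
        · exact Or.inr (Or.inr h7)
      · rcases (by omega : i ≤ y₁ + m ∨ i = y₁ + m + 1) with h8 | rfl
        · exact Or.inl ⟨i, hi, Or.inr ⟨h8, h7⟩⟩
        · exact Or.inr (Or.inl (Or.inr h7))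
    · rintro (⟨i, hi, ⟨h6, h7⟩ | ⟨h6, h7⟩⟩ | ((h6 | h6) | h6))
      · exact ⟨i, hi, Or.inl ⟨by omega, h7⟩⟩
      · exact ⟨i, hi, Or.inr ⟨by omega, h7⟩⟩
      · exact ⟨y₁ + m + 1, by omega, Or.inl ⟨by omega, h6⟩⟩
      · exact ⟨y₁ + m + 1, by omega, Or.inr ⟨by omega, h6⟩⟩
      · exact ⟨y₁ + m + 1 + 1, by omega, Or.inl ⟨by omega, h6⟩⟩

lemma BGrid.row_conn (hB : BGrid W n P up) (hn : 2 ≤ n) {j : ℕ} (hj : j < n) :
    ConnIn W (Un P (RowL n j)) := by
  have h := hB.row_part hj (x₁ := 0) (by omega) (n - 2) (by omega)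
  convert h using 1
  ext v
  simp only [Un, RowL, mem_ofPred_eq]
  constructor
  · rintro ⟨⟨t, x, y⟩, ⟨h1, h2, h3⟩, hv⟩
    simp only at h1 h2 h3
    subst h1
    rcases h3 with rfl | ⟨rfl, h3⟩
    · exact ⟨x, by omega, Or.inl ⟨by omega, hv⟩⟩
    · exact ⟨x, by omega, Or.inr ⟨by omega, hv⟩⟩
  · rintro ⟨i, _, ⟨h1, h2⟩ | ⟨h1, h2⟩⟩
    · exact ⟨(0, i, j), ⟨rfl, by simp only; omega, Or.inl rfl⟩, h2⟩
    · exact ⟨(1, i, j), ⟨rfl, by simp only; omega, Or.inr ⟨rfl, by simp only; omega⟩⟩, h2⟩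

lemma BGrid.col_conn (hB : BGrid W n P up) (hn : 2 ≤ n) {i : ℕ} (hi : i < n) :
    ConnIn W (Un P (ColL n i)) := by
  have h := hB.col_part hi (y₁ := 0) (by omega) (n - 2) (by omega)
  convert h using 1
  ext v
  simp only [Un, ColL, mem_ofPred_eq]
  constructor
  · rintro ⟨⟨t, x, y⟩, ⟨h1, h2, h3⟩, hv⟩
    simp only at h1 h2 h3
    subst h1
    rcases h3 with rfl | ⟨rfl, h3⟩
    · exact ⟨y, by omega, Or.inl ⟨by omega, hv⟩⟩
    · exact ⟨y, by omega, Or.inr ⟨by omega, hv⟩⟩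
  · rintro ⟨j, _, ⟨h1, h2⟩ | ⟨h1, h2⟩⟩
    · exact ⟨(0, i, j), ⟨rfl, by simp only; omega, Or.inl rfl⟩, h2⟩
    · exact ⟨(2, i, j), ⟨rfl, by simp only; omega, Or.inr ⟨rfl, by simp only; omega⟩⟩, h2⟩

/-- The line `(false, j)` is row `j`, the line `(true, i)` is column `i`. -/
def LineL (n : ℕ) (s : Bool) (j : ℕ) : Set (ℕ × ℕ × ℕ) := if s then ColL n j else RowL n j

lemma lineL_val {n j : ℕ} (s : Bool) (hj : j < n) : LineL n s j ⊆ Val n := by
  cases s
  · exact rowL_val hj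
  · exact colL_val hj

lemma lineL_inj {n : ℕ} {s : Bool} {i j : ℕ} {l : ℕ × ℕ × ℕ} (h1 : l ∈ LineL n s i)
    (h2 : l ∈ LineL n s j) : i = j := by
  cases s
  · exact h1.1.symm.trans h2.1
  · exact h1.1.symm.trans h2.1

lemma BGrid.line_conn (hB : BGrid W n P up) (hn : 2 ≤ n) (s : Bool) {j : ℕ} (hj : j < n) :
    ConnIn W (Un P (LineL n s j)) := by
  cases s
  · exact hB.row_conn hn hj
  · exact hB.col_conn hn hj

lemma BGrid.line_inj (hB : BGrid W n P up) {s : Bool} {i j : ℕ} (hi : i < n) (hj : j < n) {v : V}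
    (h1 : v ∈ Un P (LineL n s i)) (h2 : v ∈ Un P (LineL n s j)) : i = j := by
  obtain ⟨l, hl, hv⟩ := h1
  obtain ⟨l', hl', hv'⟩ := h2
  have := hB.disj l (lineL_val s hi hl) l' (lineL_val s hj hl') v hv hv'
  subst this
  exact lineL_inj hl hl'

/-- A set of `m < |J|` vertices misses one of the lines with index in `J`. -/
lemma BGrid.free_line (hB : BGrid W n P up) (s : Bool) {F : Set V} (hF : F.Finite)
    {J : Finset ℕ} (hJ : ∀ j ∈ J, j < n) (hc : F.ncard < J.card) :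
    ∃ j ∈ J, ∀ v ∈ Un P (LineL n s j), v ∉ F := by
  classical
  by_contra hno
  push Not at hno
  obtain ⟨j0, hj0⟩ : J.Nonempty := Finset.card_pos.1 (by omega)
  obtain ⟨v0, _⟩ := hno j0 hj0
  have : Nonempty V := ⟨v0⟩
  choose! g hg1 hg2 using hno
  have h1 : (J : Set ℕ).ncard ≤ F.ncard := by
    refine ncard_le_ncard_of_injOn g (fun j hj => hg2 j hj) ?_ hF
    intro i hi j hj hij
    refine hB.line_inj (s := s) (hJ i hi) (hJ j hj) (hg1 i hi) ?_
    rw [hij]
    exact hg1 j hj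
  rw [ncard_coe_finset] at h1
  omega

/-! ### Small sides -/

/-- `X` contains no row. -/
def Small (n : ℕ) (P : ℕ × ℕ × ℕ → Set V) (X : Set V) : Prop :=
  ∀ j < n, ¬ Un P (RowL n j) ⊆ X

lemma Small.mono {X Y : Set V} (h : Small n P Y) (hXY : X ⊆ Y) : Small n P X :=
  fun j hj hs => h j hj (hs.trans hXY)

lemma node_row {x y : ℕ} (hx : x < n) {v : V} (hv : v ∈ P (0, x, y)) :
    v ∈ Un P (LineL n false y) := ⟨(0, x, y), ⟨rfl, hx, Or.inl rfl⟩, hv⟩

lemma node_col {x y : ℕ} (hy : y < n) {v : V} (hv : v ∈ P (0, x, y)) :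
    v ∈ Un P (LineL n true x) := ⟨(0, x, y), ⟨rfl, hy, Or.inl rfl⟩, hv⟩

/-- A free line lies inside of `X` or outside. -/
lemma line_dich (hB : BGrid W n P up) (hn : 2 ≤ n) (hWH : W ≤ H) {X : Set V} (s : Bool) {j : ℕ}
    (hj : j < n) (hf : ∀ v ∈ Un P (LineL n s j), v ∉ bd H X) {a : V}
    (ha : a ∈ Un P (LineL n s j)) (haX : a ∉ X) : ∀ v ∈ Un P (LineL n s j), v ∉ X := by
  intro v hv hvX
  obtain ⟨u, hu, hu'⟩ := cross ((hB.line_conn hn s hj) v hv a ha) hvX haX
  exact hf u hu' (bd_mono hWH X hu)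

/-- If a small set has less than `n` boundary vertices then all free lines lie outside. -/
lemma free_out (hB : BGrid W n P up) (hn : 2 ≤ n) (hWH : W ≤ H) (hH : H.edgeSet.Finite)
    {X : Set V} (hX : Small n P X) (hc : (bd H X).ncard < n) (s : Bool) {j : ℕ} (hj : j < n)
    (hf : ∀ v ∈ Un P (LineL n s j), v ∉ bd H X) : ∀ v ∈ Un P (LineL n s j), v ∉ X := by
  -- rows first
  have hrow : ∀ j < n, (∀ v ∈ Un P (LineL n false j), v ∉ bd H X) →
      ∀ v ∈ Un P (LineL n false j), v ∉ X := by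
    intro j hj hf
    obtain ⟨a, ha, haX⟩ := Set.not_subset.1 (hX j hj)
    exact line_dich hB hn hWH false hj hf ha haX
  cases s
  · exact hrow j hj hf
  · obtain ⟨j0, hj0, hf0⟩ := hB.free_line false (bd_fin hH X) (J := Finset.range n)
      (fun j hj => Finset.mem_range.1 hj) (by rwa [Finset.card_range])
    have hj0' := Finset.mem_range.1 hj0
    obtain ⟨a, ha⟩ := hB.ne j hj j0 hj0'
    exact line_dich hB hn hWH true hj hf (node_col hj0' ha)
      (hrow j0 hj0' hf0 a (node_row hj ha))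

/-- Two small sets with few boundary vertices and one more vertex do not contain a row. -/
lemma small_union (hB : BGrid W n P up) (hn : 2 ≤ n) (hWH : W ≤ H) (hH : H.edgeSet.Finite)
    {X Y : Set V} (hX : Small n P X) (hY : Small n P Y) {k l : ℕ} (hcX : (bd H X).ncard ≤ k)
    (hcY : (bd H Y).ncard ≤ l) (hkn : k + l + 1 < n) (y : V) : Small n P (insert y (X ∪ Y)) := by
  classical
  intro j hj hs
  -- first free column
  set F : Set V := bd H X ∪ bd H Y with hF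
  have hFf : F.Finite := (bd_fin hH X).union (bd_fin hH Y)
  have hFc : F.ncard ≤ k + l := (ncard_union_le _ _).trans (by omega)
  obtain ⟨i, hi, hif⟩ := hB.free_line true hFf (J := Finset.range n)
    (fun j hj => Finset.mem_range.1 hj) (by rw [Finset.card_range]; omega)
  obtain ⟨i', hi', hif'⟩ := hB.free_line true hFf (J := (Finset.range n).erase i)
    (fun j hj => Finset.mem_range.1 (Finset.mem_of_mem_erase hj))
    (by rw [Finset.card_erase_of_mem hi, Finset.card_range]; omega)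
  have hin := Finset.mem_range.1 hi
  have hin' := Finset.mem_range.1 (Finset.mem_of_mem_erase hi')
  have hne : i' ≠ i := Finset.ne_of_mem_erase hi'
  have key : ∀ i < n, (∀ v ∈ Un P (LineL n true i), v ∉ F) → ∀ v ∈ P (0, i, j), v = y := by
    intro i hi hif v hv
    have h1 := free_out hB hn hWH hH hX (by omega) true hi (fun v hv h => hif v hv (Or.inl h)) v
      (node_col hj hv)
    have h2 := free_out hB hn hWH hH hY (by omega) true hi (fun v hv h => hif v hv (Or.inr h)) v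
      (node_col hj hv)
    rcases hs (node_row hi hv) with h3 | h3 | h3
    · exact h3
    · exact absurd h3 h1
    · exact absurd h3 h2
  obtain ⟨v, hv⟩ := hB.ne i hin j hj
  obtain ⟨v', hv'⟩ := hB.ne i' hin' j hj
  have h1 := key i hin hif v hv
  have h2 := key i' hin' hif' v' hv'
  subst h1
  subst h2
  exact hne (hB.line_inj (s := true) hin' hin (node_col hj hv') (node_col hj hv))

/-- `Z` is linked to the tangle of the grid in `H`. -/
def LL (n : ℕ) (P : ℕ × ℕ × ℕ → Set V) (k : ℕ) (Z : Set V) (H : SimpleGraph V) : Prop :=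
  ∀ X : Set V, Z ⊆ X → Small n P X → k ≤ (bd H X).ncard

/-- The hypothesis with separating sets. -/
lemma ll_of_sep (hB : BGrid W n P up) (hn : 2 ≤ n) (hWH : W ≤ H) (hH : H.edgeSet.Finite)
    {k : ℕ} (hkn : k ≤ n) {Z : Set V}
    (hZ : ∀ S : Finset V, S.card < k → ∃ z ∈ Z, ∃ j < n, (∀ v ∈ Un P (RowL n j), v ∉ S) ∧
      ∃ x ∈ Un P (RowL n j), Joined H (S : Set V)ᶜ z x) : LL n P k Z H := by
  classical
  intro X hZX hX
  by_contra hlt
  push Not at hlt
  have hfin := bd_fin hH X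
  obtain ⟨z, hz, j, hj, hf, x, hx, hzx⟩ := hZ hfin.toFinset
    (by rw [← ncard_eq_toFinset_card _ hfin]; exact hlt)
  have hf' : ∀ v ∈ Un P (LineL n false j), v ∉ bd H X := fun v hv h =>
    hf v hv (hfin.mem_toFinset.2 h)
  have h1 := free_out hB hn hWH hH hX (by omega) false hj hf' x hx
  obtain ⟨u, hu, hu'⟩ := cross hzx (hZX hz) h1
  exact hu' (by simpa using hu)

/-- One critical edge. -/
lemma crit (hB : BGrid W n P up) (hn : 2 ≤ n) {k : ℕ} (hkn : 2 * k + 2 ≤ n)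
    (hH : H.edgeSet.Finite) {Z : Set V} (hL : LL n P k Z H)
    {u v : V} (huv : H.Adj u v) (hW' : W ≤ H.deleteEdges {s(u, v)})
    (hc : ¬ LL n P k Z (H.deleteEdges {s(u, v)})) :
    ∃ X : Set V, Z ⊆ X ∧ Small n P X ∧ (bd H X).ncard ≤ k ∧ u ∈ X ∧ v ∈ X := by
  classical
  set H' := H.deleteEdges {s(u, v)} with hH'
  have hle : H' ≤ H := SimpleGraph.deleteEdges_le _
  have hfin' : H'.edgeSet.Finite := hH.subset (SimpleGraph.edgeSet_mono hle)
  unfold LL at hc
  push Not at hc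
  obtain ⟨X, hZX, hX, hlt⟩ := hc
  have h1 := hL X hZX hX
  -- the boundary changes
  have h2 : ∃ x ∈ bd H X, x ∉ bd H' X := by
    by_contra hno
    push Not at hno
    have := ncard_le_ncard hno (bd_fin hfin' X)
    omega
  obtain ⟨x, ⟨hxX, y, hyX, hxy⟩, hx'⟩ := h2
  have hadj : ∀ a b, H.Adj a b → s(a, b) ≠ s(u, v) → H'.Adj a b := by
    intro a b hab hne
    rw [hH', SimpleGraph.deleteEdges_adj]
    exact ⟨hab, by simpa using hne⟩
  have hexy : s(x, y) = s(u, v) := by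
    by_contra hne
    exact hx' ⟨hxX, y, hyX, hadj x y hxy hne⟩
  have hsub : bd H (insert y X) ⊆ insert y (bd H' X) := by
    rintro w ⟨hw, w', hw', hww'⟩
    rw [mem_insert_iff, not_or] at hw'
    rcases hw with rfl | hw
    · exact mem_insert _ _
    · refine mem_insert_of_mem _ ⟨hw, w', hw'.2, hadj w w' hww' ?_⟩
      intro he
      rw [← hexy, Sym2.eq_iff] at he
      rcases he with ⟨rfl, rfl⟩ | ⟨rfl, rfl⟩
      · exact hw'.1 rfl
      · exact hyX hw
  have hcard : (bd H (insert y X)).ncard ≤ k := by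
    have h3 := ncard_le_ncard hsub ((bd_fin hfin' X).insert y)
    have h4 := ncard_insert_le y (bd H' X)
    omega
  have hsm : Small n P (insert y X) := by
    have h3 := small_union hB hn hW' hfin' hX hX (k := k) (l := k) (by omega) (by omega) (by omega) y
    rwa [union_self] at h3
  refine ⟨insert y X, hZX.trans (subset_insert _ _), hsm, hcard, ?_⟩
  rw [Sym2.eq_iff] at hexy
  rcases hexy with ⟨rfl, rfl⟩ | ⟨rfl, rfl⟩
  · exact ⟨Or.inr hxX, Or.inl rfl⟩
  · exact ⟨Or.inl rfl, Or.inr hxX⟩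

/-- All edges outside of `W` lie in one small set of order `k`, if `H` is minimal. -/
lemma one_side (hB : BGrid W n P up) (hn : 2 ≤ n) {k : ℕ} (hkn : 2 * k + 2 ≤ n)
    (hWH : W ≤ H) (hH : H.edgeSet.Finite) {Z : Set V} (hL : LL n P k Z H)
    (hmin : ∀ u v, H.Adj u v → ¬ W.Adj u v → ¬ LL n P k Z (H.deleteEdges {s(u, v)})) :
    ∃ X : Set V, Small n P X ∧ (bd H X).ncard ≤ k ∧
      ∀ u v, H.Adj u v → ¬ W.Adj u v → u ∈ X := by
  classical
  -- the set of edges to be collected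
  have hE : (H.edgeSet \ W.edgeSet).Finite := hH.subset sdiff_subset
  have key : ∀ E : Set (Sym2 V), E.Finite → E ⊆ H.edgeSet \ W.edgeSet →
      ∃ X : Set V, (X = ∅ ∨ Z ⊆ X) ∧ Small n P X ∧ (bd H X).ncard ≤ k ∧ ∀ e ∈ E, ∀ u ∈ e, u ∈ X := by
    intro E hEf
    induction E, hEf using Set.Finite.induction_on with
    | empty =>
      intro _
      refine ⟨∅, Or.inl rfl, ?_, ?_, by simp⟩
      · intro j hj hs
        obtain ⟨v, hv⟩ := hB.ne 0 (by omega) j hj
        exact hs (node_row (n := n) (by omega) hv)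
      · have : bd H (∅ : Set V) = ∅ := by
          ext x
          simp [bd]
        rw [this]
        simp
    | @insert e E he hE ih =>
      intro hs
      obtain ⟨X, hX1, hX2, hX3, hX4⟩ := ih ((subset_insert _ _).trans hs)
      have he' := hs (mem_insert _ _)
      obtain ⟨Y, hY1, hY2, hY3, hY4⟩ : ∃ Y : Set V, Z ⊆ Y ∧ Small n P Y ∧ (bd H Y).ncard ≤ k ∧
          ∀ u ∈ e, u ∈ Y := by
        induction e using Sym2.ind with
        | _ u v =>
          have h1 : H.Adj u v := he'.1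
          have h2 : ¬ W.Adj u v := he'.2
          obtain ⟨Y, a1, a2, a3, a4, a5⟩ := crit hB hn hkn hH hL h1 (by
            intro a b hab
            rw [SimpleGraph.deleteEdges_adj]
            refine ⟨hWH hab, ?_⟩
            intro hh
            rw [mem_singleton_iff, Sym2.eq_iff] at hh
            rcases hh with ⟨rfl, rfl⟩ | ⟨rfl, rfl⟩
            · exact h2 hab
            · exact h2 hab.symm) (hmin u v h1 h2)
          refine ⟨Y, a1, a2, a3, ?_⟩
          intro w hw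
          rw [Sym2.mem_iff] at hw
          rcases hw with rfl | rfl
          · exact a4
          · exact a5
      rcases hX1 with rfl | hX1
      · refine ⟨Y, Or.inr hY1, hY2, hY3, ?_⟩
        rintro f (rfl | hf) w hw
        · exact hY4 w hw
        · exact absurd (hX4 f hf w hw) (by simp)
      · have h1 : Small n P (X ∪ Y) := by
          obtain ⟨v, hv⟩ := hB.ne 0 (by omega) 0 (by omega)
          exact (small_union hB hn hWH hH hX2 hY2 hX3 hY3 (by omega) v).mono (subset_insert _ _)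
        have h2 := bd_submod hH X Y
        have h3 := hL (X ∩ Y) (subset_inter hX1 hY1) (hX2.mono inter_subset_left)
        refine ⟨X ∪ Y, Or.inr (hX1.trans subset_union_left), h1, by omega, ?_⟩
        rintro f (rfl | hf) w hw
        · exact Or.inr (hY4 w hw)
        · exact Or.inl (hX4 f hf w hw)
  obtain ⟨X, _, h2, h3, h4⟩ := key _ hE (Subset.refl _)
  exact ⟨X, h2, h3, fun u v huv hW => h4 s(u, v) ⟨huv, hW⟩ u (by simp)⟩

/-- A minimal graph in which `Z` is linked. -/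
lemma exists_min {G : SimpleGraph V} (hWG : W ≤ G) (hG : G.edgeSet.Finite) {k : ℕ} {Z : Set V}
    (hL : LL n P k Z G) : ∃ H : SimpleGraph V, W ≤ H ∧ H ≤ G ∧ LL n P k Z H ∧
      ∀ u v, H.Adj u v → ¬ W.Adj u v → ¬ LL n P k Z (H.deleteEdges {s(u, v)}) := by
  classical
  have hex : ∃ m : ℕ, ∃ H : SimpleGraph V, W ≤ H ∧ H ≤ G ∧ LL n P k Z H ∧ H.edgeSet.ncard = m :=
    ⟨_, G, hWG, le_rfl, hL, rfl⟩
  obtain ⟨H, h1, h2, h3, h4⟩ := Nat.find_spec hex
  refine ⟨H, h1, h2, h3, ?_⟩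
  intro u v huv hW hLL
  have hfin : H.edgeSet.Finite := hG.subset (SimpleGraph.edgeSet_mono h2)
  have hE : (H.deleteEdges {s(u, v)}).edgeSet = H.edgeSet \ {s(u, v)} :=
    SimpleGraph.edgeSet_deleteEdges _
  have hlt : (H.deleteEdges {s(u, v)}).edgeSet.ncard < Nat.find hex := by
    rw [hE, ← h4]
    have h5 : s(u, v) ∈ H.edgeSet := huv
    have h6 := ncard_sdiff_singleton_of_mem h5
    have h7 : 0 < H.edgeSet.ncard := (ncard_pos hfin).2 ⟨_, h5⟩
    omega
  refine Nat.find_min hex hlt ⟨_, ?_, (SimpleGraph.deleteEdges_le _).trans h2, hLL, rfl⟩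
  intro a b hab
  rw [SimpleGraph.deleteEdges_adj]
  refine ⟨h1 hab, ?_⟩
  intro hh
  rw [mem_singleton_iff, Sym2.eq_iff] at hh
  rcases hh with ⟨rfl, rfl⟩ | ⟨rfl, rfl⟩
  · exact hW hab
  · exact hW hab.symm

/-! ### The block -/

/-- A block of `m` rows and `m` columns which avoid a small set of vertices. -/
lemma free_block (hB : BGrid W n P up) {F : Set V} (hF : F.Finite) {r m : ℕ} (hr : 2 * F.ncard < r)
    (hn : r * m ≤ n) : ∃ t < r, ∀ (s : Bool), ∀ j, t * m ≤ j → j < t * m + m →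
      ∀ v ∈ Un P (LineL n s j), v ∉ F := by
  classical
  by_contra hno
  push Not at hno
  have hno' : ∀ t : Fin r, ∃ x : Bool × V, x.2 ∈ F ∧ ∃ j, t.1 * m ≤ j ∧ j < t.1 * m + m ∧
      x.2 ∈ Un P (LineL n x.1 j) := by
    intro t
    obtain ⟨s, j, h1, h2, v, h3, h4⟩ := hno t.1 t.2
    exact ⟨(s, v), h4, j, h1, h2, h3⟩
  choose g hg1 hg2 using hno'
  have hlt : ∀ (t : Fin r) (j : ℕ), j < t.1 * m + m → j < n := by
    intro t j hj
    have h1 : (t.1 + 1) * m ≤ r * m := Nat.mul_le_mul_right m t.2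
    have h2 : (t.1 + 1) * m = t.1 * m + m := by ring
    omega
  have hinj : Function.Injective g := by
    intro t t' htt
    obtain ⟨j, h1, h2, h3⟩ := hg2 t
    obtain ⟨j', h1', h2', h3'⟩ := hg2 t'
    rw [← htt] at h3'
    have h4 := hB.line_inj (hlt t j h2) (hlt t' j' h2') h3 h3'
    subst h4
    apply Fin.ext
    by_contra hne
    rcases Nat.lt_or_gt_of_ne hne with h5 | h5
    · have h6 : (t.1 + 1) * m ≤ t'.1 * m := Nat.mul_le_mul_right m h5
      have h7 : (t.1 + 1) * m = t.1 * m + m := by ring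
      omega
    · have h6 : (t'.1 + 1) * m ≤ t.1 * m := Nat.mul_le_mul_right m h5
      have h7 : (t'.1 + 1) * m = t'.1 * m + m := by ring
      omega
  have h1 : Fintype.card (Fin r) ≤ ((Finset.univ : Finset Bool) ×ˢ hF.toFinset).card := by
    rw [← Finset.card_univ, ← Finset.card_image_of_injective _ hinj]
    refine Finset.card_le_card ?_
    intro x hx
    obtain ⟨t, _, rfl⟩ := Finset.mem_image.1 hx
    exact Finset.mem_product.2 ⟨Finset.mem_univ _, hF.mem_toFinset.2 (hg1 t)⟩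
  rw [Fintype.card_fin, Finset.card_product, Finset.card_univ, Fintype.card_bool,
    ← ncard_eq_toFinset_card _ hF] at h1
  omega

/-- The labels inside of the frame of the rows `jb`, `jt` and the columns `il`, `ir`. -/
def InnL (il ir jb jt : ℕ) : Set (ℕ × ℕ × ℕ) :=
  {l | (l.1 = 0 ∧ il < l.2.1 ∧ l.2.1 < ir ∧ jb < l.2.2 ∧ l.2.2 < jt) ∨
    (l.1 = 1 ∧ il ≤ l.2.1 ∧ l.2.1 < ir ∧ jb < l.2.2 ∧ l.2.2 < jt) ∨
    (l.1 = 2 ∧ il < l.2.1 ∧ l.2.1 < ir ∧ jb ≤ l.2.2 ∧ l.2.2 < jt)}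

/-- The labels of the frame. -/
def FrL (n il ir jb jt : ℕ) : Set (ℕ × ℕ × ℕ) :=
  (LineL n false jt ∪ LineL n true il) ∪ (LineL n false jb ∪ LineL n true ir)

lemma innL_val {il ir jb jt : ℕ} (hir : ir < n) (hjt : jt < n) : InnL il ir jb jt ⊆ Val n := by
  rintro ⟨t, x, y⟩ (⟨h1, h2, h3, h4, h5⟩ | ⟨h1, h2, h3, h4, h5⟩ | ⟨h1, h2, h3, h4, h5⟩)
  · simp only at h1 h2 h3 h4 h5
    exact ⟨by simp only; omega, by simp only; omega, Or.inl h1⟩
  · simp only at h1 h2 h3 h4 h5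
    exact ⟨by simp only; omega, by simp only; omega, Or.inr (Or.inl ⟨h1, by simp only; omega⟩)⟩
  · simp only at h1 h2 h3 h4 h5
    exact ⟨by simp only; omega, by simp only; omega, Or.inr (Or.inr ⟨h1, by simp only; omega⟩)⟩

lemma un_union {A B : Set (ℕ × ℕ × ℕ)} : Un P (A ∪ B) = Un P A ∪ Un P B := by
  ext v
  constructor
  · rintro ⟨l, hl | hl, hv⟩
    · exact Or.inl ⟨l, hl, hv⟩
    · exact Or.inr ⟨l, hl, hv⟩
  · rintro (⟨l, hl, hv⟩ | ⟨l, hl, hv⟩)
    · exact ⟨l, Or.inl hl, hv⟩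
    · exact ⟨l, Or.inr hl, hv⟩

lemma mem_frL {il ir jb jt t x y : ℕ} : (t, x, y) ∈ FrL n il ir jb jt ↔
    ((y = jt ∨ y = jb) ∧ x < n ∧ (t = 0 ∨ (t = 1 ∧ x + 1 < n))) ∨
    ((x = il ∨ x = ir) ∧ y < n ∧ (t = 0 ∨ (t = 2 ∧ y + 1 < n))) := by
  simp only [FrL, LineL, RowL, ColL, mem_union, mem_ofPred_eq, if_true, Bool.false_eq_true, if_false]
  tauto

/-- Horizontal pieces do not cross the frame. -/
lemma piece_hor {il ir jb jt x y : ℕ} (hy : y < n)
    {l l' : ℕ × ℕ × ℕ} (hl : l = (0, x, y) ∨ l = (1, x, y) ∨ l = (0, x + 1, y))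
    (hl' : l' = (0, x, y) ∨ l' = (1, x, y) ∨ l' = (0, x + 1, y))
    (h : l ∈ InnL il ir jb jt) : l' ∈ InnL il ir jb jt ∨ l' ∈ FrL n il ir jb jt := by
  have key : ∀ t x' , ((t, x', y) : ℕ × ℕ × ℕ) = l' → (t = 0 ∧ il ≤ x' ∧ x' ≤ ir ∨ t = 1 ∧ il ≤ x' ∧ x' < ir) →
      jb < y → y < jt → l' ∈ InnL il ir jb jt ∨ l' ∈ FrL n il ir jb jt := by
    rintro t x' rfl (⟨rfl, h1, h2⟩ | ⟨rfl, h1, h2⟩) h3 h4
    · by_cases h5 : x' = il ∨ x' = ir
      · exact Or.inr (mem_frL.2 (Or.inr ⟨h5, hy, Or.inl rfl⟩))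
      · exact Or.inl (Or.inl ⟨rfl, by simp only; omega, by simp only; omega, h3, h4⟩)
    · exact Or.inl (Or.inr (Or.inl ⟨rfl, h1, h2, h3, h4⟩))
  have hin : il ≤ x + 1 ∧ x ≤ ir ∧ jb < y ∧ y < jt ∧ il ≤ x ∧ x + 1 ≤ ir := by
    rcases hl with rfl | rfl | rfl <;> rcases h with h | h | h <;>
      simp only [zero_ne_one, false_and, true_and, one_ne_zero, OfNat.zero_ne_ofNat,
        OfNat.one_ne_ofNat] at h <;> omega
  obtain ⟨h1, h2, h3, h4, h5, h6⟩ := hin
  rcases hl' with rfl | rfl | rfl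
  · exact key 0 x rfl (Or.inl ⟨rfl, h5, h2⟩) h3 h4
  · exact key 1 x rfl (Or.inr ⟨rfl, h5, by omega⟩) h3 h4
  · exact key 0 (x + 1) rfl (Or.inl ⟨rfl, h1, h6⟩) h3 h4

/-- Vertical pieces do not cross the frame. -/
lemma piece_ver {il ir jb jt x y : ℕ} (hx : x < n)
    {l l' : ℕ × ℕ × ℕ} (hl : l = (0, x, y) ∨ l = (2, x, y) ∨ l = (0, x, y + 1))
    (hl' : l' = (0, x, y) ∨ l' = (2, x, y) ∨ l' = (0, x, y + 1))
    (h : l ∈ InnL il ir jb jt) : l' ∈ InnL il ir jb jt ∨ l' ∈ FrL n il ir jb jt := by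
  have key : ∀ t y' , ((t, x, y') : ℕ × ℕ × ℕ) = l' → (t = 0 ∧ jb ≤ y' ∧ y' ≤ jt ∨ t = 2 ∧ jb ≤ y' ∧ y' < jt) →
      il < x → x < ir → l' ∈ InnL il ir jb jt ∨ l' ∈ FrL n il ir jb jt := by
    rintro t y' rfl (⟨rfl, h1, h2⟩ | ⟨rfl, h1, h2⟩) h3 h4
    · by_cases h5 : y' = jt ∨ y' = jb
      · exact Or.inr (mem_frL.2 (Or.inl ⟨h5, hx, Or.inl rfl⟩))
      · exact Or.inl (Or.inl ⟨rfl, h3, h4, by simp only; omega, by simp only; omega⟩)
    · exact Or.inl (Or.inr (Or.inr ⟨rfl, h3, h4, h1, h2⟩))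
  have hin : jb ≤ y + 1 ∧ y ≤ jt ∧ il < x ∧ x < ir ∧ jb ≤ y ∧ y + 1 ≤ jt := by
    rcases hl with rfl | rfl | rfl <;> rcases h with h | h | h <;>
      simp only [zero_ne_one, false_and, true_and, one_ne_zero, OfNat.zero_ne_ofNat,
        OfNat.one_ne_ofNat, OfNat.ofNat_ne_zero, OfNat.ofNat_ne_one] at h <;> omega
  obtain ⟨h1, h2, h3, h4, h5, h6⟩ := hin
  rcases hl' with rfl | rfl | rfl
  · exact key 0 y rfl (Or.inl ⟨rfl, h5, h2⟩) h3 h4
  · exact key 2 y rfl (Or.inr ⟨rfl, h5, by omega⟩) h3 h4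
  · exact key 0 (y + 1) rfl (Or.inl ⟨rfl, h1, h6⟩) h3 h4

/-- Edges of `W` do not cross the frame. -/
lemma BGrid.barrier (hB : BGrid W n P up) {il ir jb jt : ℕ} (hir : ir < n) (hjt : jt < n)
    {u v : V} (huv : W.Adj u v) (hv : v ∈ Un P (InnL il ir jb jt)) :
    u ∈ Un P (InnL il ir jb jt) ∨ u ∈ Un P (FrL n il ir jb jt) := by
  obtain ⟨l, hl, hvl⟩ := hv
  have hlv := innL_val (il := il) (jb := jb) hir hjt hl
  have fin : ∀ l', u ∈ P l' → (l' ∈ InnL il ir jb jt ∨ l' ∈ FrL n il ir jb jt) →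
      u ∈ Un P (InnL il ir jb jt) ∨ u ∈ Un P (FrL n il ir jb jt) := by
    rintro l' h1 (h2 | h2)
    · exact Or.inl ⟨l', h2, h1⟩
    · exact Or.inr ⟨l', h2, h1⟩
  rcases hB.loc u v huv with ⟨x, y, hx, hy, hu', hv'⟩ | ⟨x, y, hx, hy, hu', hv'⟩
  · have hl2 : l = (0, x, y) ∨ l = (1, x, y) ∨ l = (0, x + 1, y) := by
      rcases hv' with (h | h) | h
      · exact Or.inl (hB.disj l hlv (0, x, y) ⟨by simp only; omega, hy, Or.inl rfl⟩ v hvl h)
      · exact Or.inr (Or.inl (hB.disj l hlv (1, x, y)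
          ⟨by simp only; omega, hy, Or.inr (Or.inl ⟨rfl, hx⟩)⟩ v hvl h))
      · exact Or.inr (Or.inr (hB.disj l hlv (0, x + 1, y) ⟨hx, hy, Or.inl rfl⟩ v hvl h))
    rcases hu' with (h | h) | h
    · exact fin _ h (piece_hor hy hl2 (Or.inl rfl) hl)
    · exact fin _ h (piece_hor hy hl2 (Or.inr (Or.inl rfl)) hl)
    · exact fin _ h (piece_hor hy hl2 (Or.inr (Or.inr rfl)) hl)
  · have hl2 : l = (0, x, y) ∨ l = (2, x, y) ∨ l = (0, x, y + 1) := by
      rcases hv' with (h | h) | h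
      · exact Or.inl (hB.disj l hlv (0, x, y) ⟨hx, by simp only; omega, Or.inl rfl⟩ v hvl h)
      · exact Or.inr (Or.inl (hB.disj l hlv (2, x, y)
          ⟨hx, by simp only; omega, Or.inr (Or.inr ⟨rfl, hy⟩)⟩ v hvl h))
      · exact Or.inr (Or.inr (hB.disj l hlv (0, x, y + 1) ⟨hx, hy, Or.inl rfl⟩ v hvl h))
    rcases hu' with (h | h) | h
    · exact fin _ h (piece_ver hx hl2 (Or.inl rfl) hl)
    · exact fin _ h (piece_ver hx hl2 (Or.inr (Or.inl rfl)) hl)
    · exact fin _ h (piece_ver hx hl2 (Or.inr (Or.inr rfl)) hl)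

/-- A walk from outside to the frame reaches the frame before the inside. -/
lemma to_frame {I F T : Set V} (hbar : ∀ u v, H.Adj u v → v ∈ I → u ∉ I → u ∈ F) {z y : V}
    (h : Joined H T z y) (hz : z ∉ I) (hy : y ∈ F) : ∃ y' ∈ F, Joined H (T ∩ Iᶜ) z y' := by
  obtain ⟨p, hp⟩ := h
  induction p with
  | nil => exact ⟨_, hy, Joined.refl ⟨hp _ (by simp), hz⟩⟩
  | @cons a b c hab p ih =>
    have ha := hp a (by simp)
    by_cases haF : a ∈ F
    · exact ⟨a, haF, Joined.refl ⟨ha, hz⟩⟩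
    · have hb : b ∉ I := fun hb => haF (hbar a b hab hb hz)
      obtain ⟨y', hy', h1⟩ := ih hb hy (fun z hz => hp z (by simp [hz]))
      exact ⟨y', hy', Joined.cons hab ⟨ha, hz⟩ h1⟩

lemma frame_conn (hB : BGrid W n P up) (hn : 2 ≤ n) {il ir jb jt : ℕ} (hil : il < n) (hir : ir < n)
    (hjb : jb < n) (hjt : jt < n) : ConnIn W (Un P (FrL n il ir jb jt)) := by
  have e : Un P (FrL n il ir jb jt) = (Un P (LineL n false jt) ∪ Un P (LineL n true il)) ∪
      (Un P (LineL n false jb) ∪ Un P (LineL n true ir)) := by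
    rw [FrL, un_union, un_union, un_union]
  rw [e]
  obtain ⟨v₁, hv₁⟩ := hB.ne il hil jt hjt
  obtain ⟨v₂, hv₂⟩ := hB.ne il hil jb hjb
  obtain ⟨v₃, hv₃⟩ := hB.ne ir hir jb hjb
  have h1 := ConnIn.union (hB.line_conn hn false hjt) (hB.line_conn hn true hil)
    (node_row hil hv₁) (node_col hjt hv₁)
  have h2 := ConnIn.union (hB.line_conn hn false hjb) (hB.line_conn hn true hir)
    (node_row hir hv₃) (node_col hjb hv₃)
  exact ConnIn.union h1 h2 (Or.inr (node_col hjb hv₂)) (Or.inl (node_row hil hv₂))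

/-- ROOTED WALL, for a minimal graph. -/
theorem rooted_min (hB : BGrid W n P up) (hWH : W ≤ H) (hH : H.edgeSet.Finite) {k h : ℕ}
    (hk : 1 ≤ k) (hh : 1 ≤ h) (hn : (4 * k + 1) * (h + 2 * k) + 1 ≤ n) {Z : Finset V}
    (hZk : Z.card = k) (hL : LL n P k (Z : Set V) H) {X : Set V} (hX : Small n P X)
    (hXk : (bd H X).ncard ≤ k) (hXe : ∀ u v, H.Adj u v → ¬ W.Adj u v → u ∈ X)
    (f : ℕ → ℕ) (hf : InjOn f (Iio k)) (hfh : ∀ i < k, f i < h) :
    ∃ a, a + (h + 2 * k) < n ∧ ∃ (z : Fin k → V)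
      (p : ∀ i : Fin k, H.Walk (z i) (up (a + k + f i) (a + k + h - 1))),
      (∀ i, z i ∈ Z ∧ (p i).IsPath) ∧
      (∀ i, ∀ v ∈ (p i).support, (v ∈ Z → v = z i) ∧
        (v ∈ Un P (RegL (a + k) (a + k) h h) → v = up (a + k + f i) (a + k + h - 1))) ∧
      ∀ i j, i ≠ j → (p i).support.Disjoint (p j).support := by
  classical
  set m := h + 2 * k with hm
  have hm3 : 3 ≤ m := by omega
  have hmul : 5 * m ≤ (4 * k + 1) * m := Nat.mul_le_mul_right m (by omega)
  have hn2 : 2 ≤ n := by omega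
  have hnk : 2 * k + 2 ≤ n := by omega
  -- the free block
  set F : Set V := bd H X ∪ (Z : Set V) with hF
  have hFf : F.Finite := (bd_fin hH X).union Z.finite_toSet
  have hFc : F.ncard ≤ 2 * k := by
    refine (ncard_union_le _ _).trans ?_
    rw [ncard_coe_finset]
    omega
  obtain ⟨t, ht, hblk⟩ := free_block hB hFf (r := 4 * k + 1) (m := m) (by omega) (by omega)
  set a := t * m with ha
  have ham : a + m < n := by
    have h1 : (t + 1) * m ≤ (4 * k + 1) * m := Nat.mul_le_mul_right m (by omega)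
    have h2 : (t + 1) * m = t * m + m := by ring
    omega
  have hZblk : ∀ (s : Bool), ∀ j, a ≤ j → j < a + m → ∀ v ∈ Un P (LineL n s j), v ∉ (Z : Set V) :=
    fun s j h1 h2 v hv h3 => hblk s j h1 h2 v hv (Or.inr h3)
  have hXblk : ∀ (s : Bool), ∀ j, a ≤ j → j < a + m → ∀ v ∈ Un P (LineL n s j), v ∉ X := by
    intro s j h1 h2
    exact free_out hB hn2 hWH hH hX (by omega) s (by omega)
      (fun v hv h3 => hblk s j h1 h2 v hv (Or.inl h3))
  set top := a + k + h - 1 with htop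
  set τ : ℕ → V := fun i => up (a + k + f i) top with hτ
  -- the target set
  set T0 : Set V := τ '' Iio k with hT0
  set Rg : Set V := Un P (RegL (a + k) (a + k) h h) with hRg
  set Uc : Set V := (Rg \ T0)ᶜ with hUc
  have hτmem : ∀ i < k, τ i ∈ P (0, a + k + f i, top) := by
    intro i hi
    have := hfh i hi
    exact hB.up_mem _ _ (by omega) (by omega)
  have hτcol : ∀ i < k, τ i ∈ Un P (LineL n true (a + k + f i)) := fun i hi =>
    node_col (by omega) (hτmem i hi)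
  have hτinj : ∀ i < k, ∀ j < k, τ i = τ j → i = j := by
    intro i hi j hj hij
    have h1 := hτcol i hi
    rw [hij] at h1
    have := hfh i hi
    have := hfh j hj
    have h2 := hB.line_inj (by omega) (by omega) h1 (hτcol j hj)
    exact hf hi hj (by omega)
  -- the region lies in the block
  have hRgline : ∀ v ∈ Rg, ∃ (s : Bool), ∃ j, a ≤ j ∧ j < a + m ∧ v ∈ Un P (LineL n s j) := by
    rintro v ⟨⟨t, x, y⟩, ⟨h1, h2, h3, h4, h5⟩, hv⟩
    simp only at h1 h2 h3 h4 h5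
    rcases h5 with rfl | ⟨rfl, h5⟩ | ⟨rfl, h5⟩
    · exact ⟨false, y, by omega, by omega, (0, x, y), ⟨rfl, by simp only; omega, Or.inl rfl⟩, hv⟩
    · exact ⟨false, y, by omega, by omega, (1, x, y), ⟨rfl, by simp only; omega,
        Or.inr ⟨rfl, by simp only; omega⟩⟩, hv⟩
    · exact ⟨true, x, by omega, by omega, (2, x, y), ⟨rfl, by simp only; omega,
        Or.inr ⟨rfl, by simp only; omega⟩⟩, hv⟩
  -- the condition of Menger's theorem
  have hmen : ∀ T : Finset V, T.card < k → ∃ z ∈ (Z : Set V), ∃ b ∈ T0,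
      Joined (inside H Uc) (T : Set V)ᶜ z b := by
    intro T hT
    have hTf : (T : Set V).Finite := T.finite_toSet
    have hTc : (T : Set V).ncard = T.card := ncard_coe_finset _
    have line : ∀ (s : Bool) (b : ℕ), b + k ≤ a + m → ∃ j, b ≤ j ∧ j < b + k ∧
        ∀ v ∈ Un P (LineL n s j), v ∉ (T : Set V) := by
      intro s b hb
      obtain ⟨j, hj, h1⟩ := hB.free_line s hTf (J := Finset.Ico b (b + k))
        (fun j hj => by have := (Finset.mem_Ico.1 hj).2; omega)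
        (by rw [hTc, Nat.card_Ico]; omega)
      exact ⟨j, (Finset.mem_Ico.1 hj).1, (Finset.mem_Ico.1 hj).2, h1⟩
    obtain ⟨jt, hjt1, hjt2, hjt⟩ := line false (a + k + h) (by omega)
    obtain ⟨jb, hjb1, hjb2, hjb⟩ := line false a (by omega)
    obtain ⟨il, hil1, hil2, hil⟩ := line true a (by omega)
    obtain ⟨ir, hir1, hir2, hir⟩ := line true (a + k + h) (by omega)
    -- the free radial column
    obtain ⟨c, hc, hcf⟩ := hB.free_line true hTf
      (J := (Finset.range k).image (fun i => a + k + f i))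
      (fun j hj => by
        obtain ⟨i, hi, rfl⟩ := Finset.mem_image.1 hj
        have := hfh i (Finset.mem_range.1 hi)
        omega)
      (by
        rw [hTc, Finset.card_image_of_injOn, Finset.card_range]
        · exact hT
        · intro i hi j hj hij
          exact hf (Finset.mem_range.1 hi) (Finset.mem_range.1 hj) (by simpa using hij))
    obtain ⟨i₀, hi₀, rfl⟩ := Finset.mem_image.1 hc
    have hi₀k := Finset.mem_range.1 hi₀
    have hfi := hfh i₀ hi₀k
    set Fr : Set V := Un P (FrL n il ir jb jt) with hFr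
    set In : Set V := Un P (InnL il ir jb jt) with hIn
    have hFrT : Fr ⊆ (T : Set V)ᶜ := by
      rintro v ⟨l, (hl | hl) | (hl | hl), hv⟩
      · exact hjt v ⟨l, hl, hv⟩
      · exact hil v ⟨l, hl, hv⟩
      · exact hjb v ⟨l, hl, hv⟩
      · exact hir v ⟨l, hl, hv⟩
    -- reach the frame
    have hreach : ∃ z ∈ (Z : Set V), ∃ y ∈ Fr, Joined H (T : Set V)ᶜ z y := by
      set X' : Set V := (T : Set V) ∪ {v | ∃ z ∈ (Z : Set V), Joined H (T : Set V)ᶜ z v} with hX'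
      have h1 : (Z : Set V) ⊆ X' := by
        intro z hz
        by_cases hzT : z ∈ (T : Set V)
        · exact Or.inl hzT
        · exact Or.inr ⟨z, hz, Joined.refl hzT⟩
      have h2 : bd H X' ⊆ (T : Set V) := by
        rintro v ⟨hv, w, hw, hvw⟩
        by_contra hvT
        rcases hv with hv | ⟨z, hz, hzv⟩
        · exact hvT hv
        · apply hw
          by_cases hwT : w ∈ (T : Set V)
          · exact Or.inl hwT
          · exact Or.inr ⟨z, hz, hzv.trans (Joined.adj hvw hvT hwT)⟩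
      have h3 : ¬ Small n P X' := by
        intro h4
        have h5 := hL X' h1 h4
        have h6 := ncard_le_ncard h2 hTf
        omega
      unfold Small at h3
      push Not at h3
      obtain ⟨j, hj, hjX⟩ := h3
      obtain ⟨v, hv⟩ := hB.ne il (by omega) j hj
      have h4 : v ∈ Un P (LineL n true il) := node_col hj hv
      rcases hjX (node_row (by omega) hv) with h5 | ⟨z, hz, hzv⟩
      · exact absurd h5 (hil v h4)
      · refine ⟨z, hz, v, ?_, hzv⟩
        obtain ⟨l, hl, hvl⟩ := h4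
        exact ⟨l, Or.inl (Or.inr hl), hvl⟩
    obtain ⟨z, hz, y, hy, hzy⟩ := hreach
    -- the inside
    have hInline : ∀ v ∈ In, ∃ (s : Bool), ∃ j, a ≤ j ∧ j < a + m ∧ v ∈ Un P (LineL n s j) := by
      rintro v ⟨⟨t, x, y⟩, (⟨h1, h2, h3, h4, h5⟩ | ⟨h1, h2, h3, h4, h5⟩ | ⟨h1, h2, h3, h4, h5⟩), hv⟩
      · simp only at h1 h2 h3 h4 h5
        subst h1
        exact ⟨false, y, by omega, by omega, (0, x, y), ⟨rfl, by simp only; omega, Or.inl rfl⟩, hv⟩
      · simp only at h1 h2 h3 h4 h5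
        subst h1
        exact ⟨false, y, by omega, by omega, (1, x, y), ⟨rfl, by simp only; omega,
          Or.inr ⟨rfl, by simp only; omega⟩⟩, hv⟩
      · simp only at h1 h2 h3 h4 h5
        subst h1
        exact ⟨true, x, by omega, by omega, (2, x, y), ⟨rfl, by simp only; omega,
          Or.inr ⟨rfl, by simp only; omega⟩⟩, hv⟩
    have hzIn : z ∉ In := by
      intro h1
      obtain ⟨s, j, h2, h3, h4⟩ := hInline z h1
      exact hZblk s j h2 h3 z h4 hz
    have hbar : ∀ u v, H.Adj u v → v ∈ In → u ∉ In → u ∈ Fr := by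
      intro u v huv hv hu
      by_cases hW : W.Adj u v
      · rcases hB.barrier (by omega) (by omega) hW hv with h1 | h1
        · exact absurd h1 hu
        · exact h1
      · obtain ⟨s, j, h2, h3, h4⟩ := hInline v hv
        exact absurd (hXe v u huv.symm (fun h => hW h.symm)) (hXblk s j h2 h3 v h4)
    obtain ⟨y', hy', hzy'⟩ := to_frame hbar hzy hzIn hy
    have hRgIn : Rg ⊆ In := by
      refine Un.mono ?_
      rintro ⟨t, x, y⟩ ⟨h1, h2, h3, h4, h5⟩
      simp only at h1 h2 h3 h4 h5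
      rcases h5 with rfl | ⟨rfl, h5⟩ | ⟨rfl, h5⟩
      · exact Or.inl ⟨rfl, by simp only; omega, by simp only; omega, by simp only; omega,
          by simp only; omega⟩
      · exact Or.inr (Or.inl ⟨rfl, by simp only; omega, by simp only; omega, by simp only; omega,
          by simp only; omega⟩)
      · exact Or.inr (Or.inr ⟨rfl, by simp only; omega, by simp only; omega, by simp only; omega,
          by simp only; omega⟩)
    -- the radial part
    set x₀ := a + k + f i₀ with hx₀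
    set Cp : Set V := {v | ∃ i, (top + 1) ≤ i ∧ ((i ≤ (top + 1) + (k - 1) + 1 ∧ v ∈ P (0, x₀, i)) ∨
      (i ≤ (top + 1) + (k - 1) ∧ v ∈ P (2, x₀, i)))} with hCp
    have hCpc : ConnIn W Cp := hB.col_part (x := x₀) (y₁ := top + 1) (by omega) (by omega) (k - 1)
      (by omega)
    set Rd : Set V := {up x₀ top} ∪ P (2, x₀, top) ∪ P (0, x₀, top + 1) with hRd
    have hRdc : ConnIn W Rd := hB.up_conn x₀ top (by omega) (by omega)
    have hFrc : ConnIn W Fr := frame_conn hB hn2 (by omega) (by omega) (by omega) (by omega)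
    obtain ⟨w₁, hw₁⟩ := hB.ne x₀ (by omega) (top + 1) (by omega)
    obtain ⟨w₂, hw₂⟩ := hB.ne x₀ (by omega) jt (by omega)
    have hall : ConnIn W (Fr ∪ (Cp ∪ Rd)) := by
      refine ConnIn.union hFrc (ConnIn.union hCpc hRdc (c := w₁)
        ⟨top + 1, le_rfl, Or.inl ⟨by omega, hw₁⟩⟩ (Or.inr hw₁)) (c := w₂) ?_ ?_
      · exact ⟨(0, x₀, jt), Or.inl (Or.inl ⟨rfl, by simp only; omega, Or.inl rfl⟩), hw₂⟩
      · exact Or.inl ⟨jt, by omega, Or.inl ⟨by omega, hw₂⟩⟩
    have hCpT : Cp ⊆ (T : Set V)ᶜ := by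
      rintro v ⟨i, h1, ⟨h2, h3⟩ | ⟨h2, h3⟩⟩
      · exact hcf v ⟨(0, x₀, i), ⟨rfl, by simp only; omega, Or.inl rfl⟩, h3⟩
      · exact hcf v ⟨(2, x₀, i), ⟨rfl, by simp only; omega, Or.inr ⟨rfl, by simp only; omega⟩⟩, h3⟩
    have hRdT : Rd ⊆ (T : Set V)ᶜ := by
      rintro v ((h1 | h1) | h1)
      · rw [mem_singleton_iff] at h1
        rw [h1]
        exact hcf _ (hτcol i₀ hi₀k)
      · exact hcf v ⟨(2, x₀, top), ⟨rfl, by simp only; omega, Or.inr ⟨rfl, by simp only; omega⟩⟩, h1⟩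
      · exact hcf v ⟨(0, x₀, top + 1), ⟨rfl, by simp only; omega, Or.inl rfl⟩, h1⟩
    -- labels outside of the region
    have hout : ∀ l ∈ Val n, l ∉ RegL (a + k) (a + k) h h → ∀ v ∈ P l, v ∈ Uc := by
      rintro l hl hlR v hv ⟨⟨l', hl', hv'⟩, _⟩
      have hl'v : l' ∈ Val n := by
        obtain ⟨t, x, y⟩ := l'
        obtain ⟨h1, h2, h3, h4, h5⟩ := hl'
        simp only at h1 h2 h3 h4 h5
        refine ⟨by simp only; omega, by simp only; omega, ?_⟩
        rcases h5 with rfl | ⟨rfl, h5⟩ | ⟨rfl, h5⟩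
        · exact Or.inl rfl
        · exact Or.inr (Or.inl ⟨rfl, by simp only; omega⟩)
        · exact Or.inr (Or.inr ⟨rfl, by simp only; omega⟩)
      have := hB.disj l hl l' hl'v v hv hv'
      subst this
      exact hlR hl'
    have hFrU : Fr ⊆ Uc := by
      rintro v ⟨⟨t, x, y⟩, hl, hv⟩
      refine hout _ ?_ ?_ v hv
      · rcases hl with (hl | hl) | (hl | hl)
        · exact lineL_val false (by omega) hl
        · exact lineL_val true (by omega) hl
        · exact lineL_val false (by omega) hl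
        · exact lineL_val true (by omega) hl
      · rintro ⟨h1, h2, h3, h4, _⟩
        simp only at h1 h2 h3 h4
        rcases mem_frL.1 hl with ⟨h5, _⟩ | ⟨h5, _⟩ <;> omega
    have hCpU : Cp ⊆ Uc := by
      rintro v ⟨i, h1, ⟨h2, h3⟩ | ⟨h2, h3⟩⟩
      · refine hout (0, x₀, i) ⟨by simp only; omega, by simp only; omega, Or.inl rfl⟩ ?_ v h3
        rintro ⟨_, _, _, h4, _⟩
        simp only at h4
        omega
      · refine hout (2, x₀, i) ⟨by simp only; omega, by simp only; omega,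
          Or.inr (Or.inr ⟨rfl, by simp only; omega⟩)⟩ ?_ v h3
        rintro ⟨_, _, _, h4, _⟩
        simp only at h4
        omega
    have hRdU : Rd ⊆ Uc := by
      rintro v ((h1 | h1) | h1)
      · rw [mem_singleton_iff] at h1
        rw [h1]
        rintro ⟨_, h2⟩
        exact h2 ⟨i₀, hi₀k, rfl⟩
      · refine hout (2, x₀, top) ⟨by simp only; omega, by simp only; omega,
          Or.inr (Or.inr ⟨rfl, by simp only; omega⟩)⟩ ?_ v h1
        rintro ⟨_, _, _, h4, h5⟩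
        simp only at h4 h5
        omega
      · refine hout (0, x₀, top + 1) ⟨by simp only; omega, by simp only; omega, Or.inl rfl⟩ ?_ v h1
        rintro ⟨_, _, _, h4, _⟩
        simp only at h4
        omega
    have j1 : Joined H (Uc ∩ (T : Set V)ᶜ) z y' := hzy'.mono (fun v hv =>
      ⟨fun h1 => hv.2 (hRgIn h1.1), hv.1⟩)
    have j2 : Joined H (Uc ∩ (T : Set V)ᶜ) y' (τ i₀) := by
      refine ((hall y' (Or.inl hy') (τ i₀) (Or.inr (Or.inr (Or.inl (Or.inl rfl))))).mono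
        ?_).mono_graph hWH
      rintro v (h1 | h1 | h1)
      · exact ⟨hFrU h1, hFrT h1⟩
      · exact ⟨hCpU h1, hCpT h1⟩
      · exact ⟨hRdU h1, hRdT h1⟩
    exact ⟨z, hz, τ i₀, ⟨i₀, hi₀k, rfl⟩, (j1.trans j2).inside⟩
  -- Menger
  obtain ⟨az, bz, p, hp1, hp2, hp3⟩ := menger (G := inside H Uc)
    (hH.subset (SimpleGraph.edgeSet_mono (inside_le H Uc))) hmen
  have hZU : ∀ z ∈ (Z : Set V), z ∈ Uc := by
    rintro z hz ⟨h1, _⟩
    obtain ⟨s, j, h2, h3, h4⟩ := hRgline z h1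
    exact hZblk s j h2 h3 z h4 hz
  have hbinj : Function.Injective bz := by
    intro i j hij
    by_contra hne
    have h1 : bz i ∈ (p i).support := (p i).end_mem_support
    have h2 : bz i ∈ (p j).support := by
      rw [hij]
      exact (p j).end_mem_support
    exact hp3 i j hne h1 h2
  have hσ : ∀ i : Fin k, ∃ j : Fin k, τ j = bz i := by
    intro i
    obtain ⟨j, hj, h1⟩ := (hp1 i).2.1
    exact ⟨⟨j, hj⟩, h1⟩
  choose σ hσ using hσ
  have hσinj : Function.Injective σ := by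
    intro i j hij
    apply hbinj
    rw [← hσ i, ← hσ j, hij]
  have hσsurj : Function.Surjective σ := Finite.injective_iff_surjective.1 hσinj
  choose ρ hρ using hσsurj
  have hρinj : Function.Injective ρ := by
    intro i j hij
    rw [← hρ i, ← hρ j, hij]
  have hend : ∀ i : Fin k, bz (ρ i) = up (a + k + f i) (a + k + h - 1) := by
    intro i
    rw [← hσ (ρ i), hρ i]
  refine ⟨a, ham, fun i => az (ρ i), fun i => ((p (ρ i)).mapLe (inside_le H Uc)).copy rfl (hend i),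
    fun i => ⟨(hp1 (ρ i)).1, ?_⟩, fun i v hv => ?_, fun i j hij v hv hv' => ?_⟩
  · rw [SimpleGraph.Walk.isPath_copy, SimpleGraph.Walk.isPath_mapLe]
    exact (hp1 (ρ i)).2.2
  · have hv2 : v ∈ (p (ρ i)).support := by simpa using hv
    refine ⟨fun h1 => (hp2 (ρ i) v hv2).1 h1, fun h1 => ?_⟩
    have h2 := inside_support (p (ρ i)) (hZU _ (hp1 (ρ i)).1) v hv2
    have h3 : v ∈ T0 := by
      by_contra h3
      exact h2 ⟨h1, h3⟩
    rw [← hend i]
    exact (hp2 (ρ i) v hv2).2 h3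
  · refine hp3 (ρ i) (ρ j) (fun h1 => hij (hρinj h1)) (by simpa using hv) (by simpa using hv')

/-- **ROOTED WALL.** `G` a graph with finitely many edges, `W ≤ G` an `n × n` grid of blobs, `Z` a
set of `k` vertices such that no set `S` of fewer than `k` vertices separates `Z` from the rows
that do not meet `S`. Then for some full subgrid with corner `(a + k, a + k)` and `h × h` nodes
there are `k` disjoint paths from `Z` to the vertices `up (a + k + f i) (a + k + h - 1)`, `i < k`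
on its top, which meet the subgrid nowhere else. The columns `f i` are prescribed. -/
theorem rooted {G : SimpleGraph V} (hB : BGrid W n P up) (hWG : W ≤ G) (hG : G.edgeSet.Finite)
    {k h : ℕ} (hk : 1 ≤ k) (hh : 1 ≤ h) (hn : (4 * k + 1) * (h + 2 * k) + 1 ≤ n) {Z : Finset V}
    (hZk : Z.card = k)
    (hZ : ∀ S : Finset V, S.card < k → ∃ z ∈ Z, ∃ j < n, (∀ v ∈ Un P (RowL n j), v ∉ S) ∧
      ∃ x ∈ Un P (RowL n j), Joined G (S : Set V)ᶜ z x)
    (f : ℕ → ℕ) (hf : InjOn f (Iio k)) (hfh : ∀ i < k, f i < h) :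
    ∃ a, a + (h + 2 * k) < n ∧ ∃ (z : Fin k → V)
      (p : ∀ i : Fin k, G.Walk (z i) (up (a + k + f i) (a + k + h - 1))),
      (∀ i, z i ∈ Z ∧ (p i).IsPath) ∧
      (∀ i, ∀ v ∈ (p i).support, (v ∈ Z → v = z i) ∧
        (v ∈ Un P (RegL (a + k) (a + k) h h) → v = up (a + k + f i) (a + k + h - 1))) ∧
      ∀ i j, i ≠ j → (p i).support.Disjoint (p j).support := by
  have hmul : 5 * (h + 2 * k) ≤ (4 * k + 1) * (h + 2 * k) := Nat.mul_le_mul_right _ (by omega)
  have hL : LL n P k (Z : Set V) G := ll_of_sep hB (by omega) hWG hG (by omega) hZ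
  obtain ⟨H, h1, h2, h3, h4⟩ := exists_min hWG hG hL
  have hH : H.edgeSet.Finite := hG.subset (SimpleGraph.edgeSet_mono h2)
  obtain ⟨X, h5, h6, h7⟩ := one_side hB (by omega) (by omega) h1 hH h3 h4
  obtain ⟨a, ha, z, p, p1, p2, p3⟩ := rooted_min hB h1 hH hk hh hn hZk h3 h5 h6 h7 f hf hfh
  refine ⟨a, ha, z, fun i => (p i).mapLe h2, fun i => ⟨(p1 i).1, ?_⟩, fun i v hv =>
    p2 i v (by simpa using hv), fun i j hij v hv hv' =>
      p3 i j hij (by simpa using hv) (by simpa using hv')⟩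
  rw [SimpleGraph.Walk.isPath_mapLe]
  exact (p1 i).2

end Grid

end K4R
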